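import Mathlib
import Pool.Agent.H83.Ponag

set_option autoImplicit false

namespace Pool.Agent.Results.MP_2f53c7_gt.PsiCounter

open Pool.Agent.H83

theorem result : ∃ (X : Type) (_ : TopologicalSpace X), Infinite X ∧ T2Space X ∧ RegularSpace X ∧
    ¬ Ponag.AliceWins X ∧ ¬ Ponag.TotallyParacompact X := by
  obtain ⟨𝒜, h⟩ := Psi.exists_mad
  haveI := Psi.t3 h.ad
  exact ⟨Psi.Psi 𝒜, inferInstance, inferInstance, inferInstance, inferInstance,
    Ponag.not_aliceWins h, Ponag.not_tp h⟩

end Pool.Agent.Results.MP_2f53c7_gt.PsiCounter
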